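import Pool.Agent.Helper76.CV.Goals

/-!
# Project CV (MP_eec6f5_gt), packet UBQ
-/

set_option autoImplicit false

namespace Pool.Agent.Helper12.CV.UBQ

theorem t : Pool.Agent.Helper76.CV.UBQ := by
  intro z u h
  have hc : 0 < Real.cos z := by rw [h]; exact Real.exp_pos _
  have h1 : Real.cos z ^ 2 = Real.exp (-(13 * u)) := by
    rw [h, sq, ← Real.exp_add]
    congr 1
    ring
  have h2 : 1 + Real.tan z ^ 2 = Real.exp (13 * u) := by
    have h3 := Real.inv_one_add_tan_sq hc.ne'
    rw [h1, Real.exp_neg] at h3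
    exact inv_injective h3
  have h4 := Real.add_one_le_exp (13 * u)
  linarith

end Pool.Agent.Helper12.CV.UBQ
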